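import Mathlib
import Pool.Agent.Q8.SQ.Sphere

/-!
# MP_a41668_al, Q1: no

The compact connected 6-manifold `S³ × S³` with `(a,b) ▷ (c,d) = (c d⁻¹ b, d c⁻¹ a)` is an
algebraically connected smooth (even real-analytic) quandle which has no injective quandle
homomorphism into the conjugation quandle of any group.
-/

open scoped Quaternion Manifold ContDiff
open Q8.SQ

namespace Pool.Agent.Results.MP_a41668_al.NoEmbedding

/-- The manifold `S³ × S³` (`S³` the group of unit quaternions) with the operation
`(a,b) ▷ (c,d) = (c d⁻¹ b, d c⁻¹ a)` is a smooth (in fact analytic) quandle, it is topologically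
connected and algebraically connected, and for no group `G` is there an injective map
`f : S³ × S³ → G` with `f (x ▷ y) = f(y)⁻¹ f(x) f(y)`. -/
theorem result :
    IsQuandle opS ∧
    ContMDiff (IS.prod IS) IS ω (fun p : (S3 × S3) × (S3 × S3) => opS p.1 p.2) ∧
    ConnectedSpace (S3 × S3) ∧
    AlgConnected opS ∧
    ∀ (G : Type*) [Group G] (f : S3 × S3 → G),
      (∀ x y, f (opS x y) = (f y)⁻¹ * f x * f y) → ¬ Function.Injective f := by
  have hA : AlgConnected opS := connected_of_commutators commutator
  refine ⟨op_quandle, opS_smooth, S3_connected, hA, ?_⟩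
  intro G _ f hf hinj
  obtain ⟨z, z', hz⟩ := noncomm
  exact hz (comm_of_injective hA f hf hinj z z')

end Pool.Agent.Results.MP_a41668_al.NoEmbedding
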